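import Pool.Agent.Helper82.PN.Goals

set_option autoImplicit false

open Set Filter Topology
open Pool.Agent.Helper82.PN

noncomputable section

namespace Pool.Agent.Helper62.PN

variable {ι σ : Type} [Fintype ι] [Fintype σ]

/-- the admissible weights -/
def Lam (x : σ → ι → ℝ) (v y : ι → ℝ) : Set (σ → ℝ) :=
  {μ | μ ∈ stdSimplex ℝ σ ∧ ∃ a : ℝ, ∑ i, μ i • x i = y + a • v}

/-- the objective -/
def gg (x : σ → ι → ℝ) (ℓ : (ι → ℝ) →ₗ[ℝ] ℝ) (j : σ) (μ : σ → ℝ) (t : ℝ) : ℝ :=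
  ℓ (∑ i, μ i • x i) + t * μ j

/-- maximal at the time `t` -/
def Opt (x : σ → ι → ℝ) (v y : ι → ℝ) (ℓ : (ι → ℝ) →ₗ[ℝ] ℝ) (j : σ) (μ : σ → ℝ) (t : ℝ) : Prop :=
  μ ∈ Lam x v y ∧ ∀ μ' ∈ Lam x v y, gg x ℓ j μ' t ≤ gg x ℓ j μ t

lemma sum_mv (x : σ → ι → ℝ) (j : σ) (v : ι → ℝ) (t : ℝ) (μ : σ → ℝ) :
    ∑ i, μ i • mv x j v t i = ∑ i, μ i • x i + (t * μ j) • v := by
  classical
  have h : ∀ i, μ i • mv x j v t i = μ i • x i + if i = j then (t * μ j) • v else 0 := by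
    intro i
    unfold mv
    by_cases hij : i = j
    · subst hij
      rw [Function.update_self, if_pos rfl, smul_add, smul_smul, mul_comm t]
    · rw [Function.update_of_ne hij, if_neg hij, add_zero]
  rw [Finset.sum_congr rfl (fun i _ => h i), Finset.sum_add_distrib,
    Finset.sum_ite_eq' Finset.univ j]
  simp

lemma sum_comb (x : σ → ι → ℝ) (μ c : σ → ℝ) (δ : ℝ) :
    ∑ i, (μ i + δ * c i) • x i = ∑ i, μ i • x i + δ • ∑ i, c i • x i := by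
  rw [Finset.smul_sum, ← Finset.sum_add_distrib]
  refine Finset.sum_congr rfl fun i _ => ?_
  rw [add_smul, smul_smul]

lemma gg_comb (x : σ → ι → ℝ) (ℓ : (ι → ℝ) →ₗ[ℝ] ℝ) (j : σ) (μ c : σ → ℝ) (δ t : ℝ) :
    gg x ℓ j (fun i => μ i + δ * c i) t = gg x ℓ j μ t + δ * gg x ℓ j c t := by
  unfold gg
  rw [sum_comb, map_add, map_smul, smul_eq_mul]
  ring

lemma small (ν c : σ → ℝ) (h0 : ∀ i, 0 ≤ ν i) (hc : ∀ i, ν i = 0 → c i = 0) :
    ∃ δ > 0, ∀ i, 0 ≤ ν i + δ * c i := by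
  have h1 : ∀ i, ∀ᶠ δ : ℝ in 𝓝[>] 0, 0 ≤ ν i + δ * c i := by
    intro i
    rcases eq_or_lt_of_le (h0 i) with h | h
    · have h2 := hc i h.symm
      filter_upwards with δ
      rw [h2, ← h]
      simp
    · have h3 : Tendsto (fun δ : ℝ => ν i + δ * c i) (𝓝[>] 0) (𝓝 (ν i + 0 * c i)) := by
        apply Tendsto.mono_left _ nhdsWithin_le_nhds
        exact (continuous_const.add (continuous_id.mul continuous_const)).tendsto 0
      rw [zero_mul, add_zero] at h3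
      filter_upwards [h3.eventually (lt_mem_nhds h)] with δ hδ
      exact hδ.le
  have h2 : ∀ᶠ δ : ℝ in 𝓝[>] 0, ∀ i, 0 ≤ ν i + δ * c i := eventually_all.mpr h1
  have h3 : ∀ᶠ δ : ℝ in 𝓝[>] 0, 0 < δ := self_mem_nhdsWithin
  obtain ⟨δ, hδ1, hδ2⟩ := (h2.and h3).exists
  exact ⟨δ, hδ2, hδ1⟩

/-- a direction of change -/
lemma comb_mem {x : σ → ι → ℝ} {v y : ι → ℝ} {μ c : σ → ℝ} {δ : ℝ} (hμ : μ ∈ Lam x v y)
    (hc : ∑ i, c i = 0) (hv : ∃ b : ℝ, ∑ i, c i • x i = b • v) (h0 : ∀ i, 0 ≤ μ i + δ * c i) :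
    (fun i => μ i + δ * c i) ∈ Lam x v y := by
  obtain ⟨⟨h1, h2⟩, a, ha⟩ := hμ
  obtain ⟨b, hb⟩ := hv
  refine ⟨⟨h0, ?_⟩, a + δ * b, ?_⟩
  · rw [Finset.sum_add_distrib, ← Finset.mul_sum, hc, mul_zero, add_zero, h2]
  · rw [sum_comb, ha, hb, smul_smul, add_assoc, ← add_smul]

/-- no improving direction at an optimum -/
lemma no_improve {x : σ → ι → ℝ} {v y : ι → ℝ} {ℓ : (ι → ℝ) →ₗ[ℝ] ℝ} {j : σ} {μ c : σ → ℝ} {t : ℝ}
    (hμ : Opt x v y ℓ j μ t) (hc : ∑ i, c i = 0) (hv : ∃ b : ℝ, ∑ i, c i • x i = b • v)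
    (hs : ∀ i, μ i = 0 → c i = 0) : gg x ℓ j c t ≤ 0 := by
  by_contra h
  have h' := not_le.mp h
  obtain ⟨δ, hδ, h0⟩ := small μ c hμ.1.1.1 hs
  have h1 := hμ.2 _ (comb_mem hμ.1 hc hv h0)
  rw [gg_comb] at h1
  nlinarith [mul_pos hδ h']

/-- affine independence, in coordinates -/
lemma aff_zero {p : σ → ι → ℝ} (hp : GenPos p) (S : Finset σ) (hS : S.card ≤ Fintype.card ι + 1)
    (d : σ → ℝ) (hd : ∀ i, i ∉ S → d i = 0) (h0 : ∑ i, d i = 0) (h1 : ∑ i, d i • p i = 0) :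
    ∀ i, d i = 0 := by
  have h := hp S hS
  rw [affineIndependent_iff] at h
  have e0 : ∑ i : S, d i = 0 := by
    rw [Finset.sum_coe_sort S d, ← h0]
    apply Finset.sum_subset (Finset.subset_univ S)
    intro i _ hi
    exact hd i hi
  have e1 : ∑ i : S, d i • p i = 0 := by
    rw [Finset.sum_coe_sort S (fun i => d i • p i), ← h1]
    apply Finset.sum_subset (Finset.subset_univ S)
    intro i _ hi
    rw [hd i hi, zero_smul]
  intro i
  by_cases hi : i ∈ S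
  · exact h Finset.univ (fun i => d i) e0 e1 ⟨i, hi⟩ (Finset.mem_univ _)
  · exact hd i hi

/-- `n + 1` points in general position span -/
lemma dir_exists {p : σ → ι → ℝ} (hp : GenPos p) (S : Finset σ) (hS : S.card = Fintype.card ι + 1)
    (v : ι → ℝ) : ∃ c : σ → ℝ, (∀ i, i ∉ S → c i = 0) ∧ ∑ i, c i = 0 ∧ ∑ i, c i • p i = v := by
  classical
  have h := hp S hS.le
  rw [affineIndependent_iff] at h
  let T : (S → ℝ) →ₗ[ℝ] (ι → ℝ) × ℝ :=
    (Fintype.linearCombination ℝ (fun i : S => p i)).prod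
      (Fintype.linearCombination ℝ (fun _ : S => (1 : ℝ)))
  have hT : ∀ c, T c = (∑ i, c i • p i, ∑ i, c i) := by
    intro c
    simp [T, Fintype.linearCombination_apply]
  have hinj : Function.Injective T := by
    rw [← LinearMap.ker_eq_bot, LinearMap.ker_eq_bot']
    intro c hc
    rw [hT, Prod.mk_eq_zero] at hc
    funext i
    exact h Finset.univ c hc.2 hc.1 i (Finset.mem_univ i)
  have hfr : Module.finrank ℝ (S → ℝ) = Module.finrank ℝ ((ι → ℝ) × ℝ) := by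
    rw [Module.finrank_fintype_fun_eq_card, Module.finrank_prod,
      Module.finrank_fintype_fun_eq_card, Module.finrank_self, Fintype.card_coe, hS]
  have hsur : Function.Surjective T :=
    (LinearMap.injective_iff_surjective_of_finrank_eq_finrank hfr).mp hinj
  obtain ⟨c, hc⟩ := hsur (v, 0)
  rw [hT, Prod.mk.injEq] at hc
  refine ⟨fun i => if hi : i ∈ S then c ⟨i, hi⟩ else 0, ?_, ?_, ?_⟩
  · intro i hi
    exact dif_neg hi
  · refine Eq.trans ?_ hc.2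
    rw [← Finset.sum_subset (Finset.subset_univ S), ← Finset.sum_coe_sort S]
    · exact Finset.sum_congr rfl fun i _ => dif_pos i.2
    · intro i _ hi
      exact dif_neg hi
  · refine Eq.trans ?_ hc.1
    rw [← Finset.sum_subset (Finset.subset_univ S), ← Finset.sum_coe_sort S]
    · refine Finset.sum_congr rfl fun i _ => ?_
      show (if hi : (i : σ) ∈ S then c ⟨i, hi⟩ else 0) • p i = c i • p i
      rw [dif_pos i.2]
    · intro i _ hi
      show (if hi : i ∈ S then c ⟨i, hi⟩ else 0) • p i = 0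
      rw [dif_neg hi, zero_smul]

open Classical in
/-- the support -/
def spt (μ : σ → ℝ) : Finset σ := Finset.univ.filter fun i => μ i ≠ 0

lemma mem_spt (μ : σ → ℝ) (i : σ) : i ∈ spt μ ↔ μ i ≠ 0 := by
  classical
  unfold spt
  simp

section

variable {x : σ → ι → ℝ} {v y : ι → ℝ} {ℓ : (ι → ℝ) →ₗ[ℝ] ℝ} {j : σ} {t : ℝ}

lemma gg_of_mv {c : σ → ℝ} {b : ℝ} (hv : ℓ v = 1) (h : ∑ i, c i • mv x j v t i = b • v) :
    gg x ℓ j c t = b ∧ ∃ b' : ℝ, ∑ i, c i • x i = b' • v := by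
  rw [sum_mv] at h
  have h1 : ∑ i, c i • x i = (b - t * c j) • v := by
    rw [sub_smul, ← h]
    abel
  refine ⟨?_, _, h1⟩
  unfold gg
  rw [h1, map_smul, hv, smul_eq_mul]
  ring

/-- the support of an optimum is small -/
lemma card_spt (hv : ℓ v = 1) (hg : GenPos (mv x j v t)) {μ : σ → ℝ} (hμ : Opt x v y ℓ j μ t) :
    (spt μ).card ≤ Fintype.card ι + 1 := by
  by_contra h
  have h1 : Fintype.card ι + 1 ≤ (spt μ).card := by omega
  obtain ⟨S, hS, hSc⟩ := Finset.exists_subset_card_eq h1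
  obtain ⟨c, hc1, hc2, hc3⟩ := dir_exists hg S hSc v
  have h2 := gg_of_mv (b := 1) hv (by rw [hc3, one_smul])
  have h3 := no_improve hμ hc2 h2.2 (fun i hi => hc1 i (fun hiS => ((mem_spt μ i).mp (hS hiS)) hi))
  rw [h2.1] at h3
  linarith

lemma diff_mv {μ μ' : σ → ℝ} (hμ : μ ∈ Lam x v y) (hμ' : μ' ∈ Lam x v y) :
    ∃ b : ℝ, ∑ i, (μ i - μ' i) • mv x j v t i = b • v := by
  obtain ⟨-, a, ha⟩ := hμ
  obtain ⟨-, a', ha'⟩ := hμ'
  refine ⟨a - a' + t * (μ j - μ' j), ?_⟩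
  rw [sum_mv (μ := fun i => μ i - μ' i)]
  have h1 : ∑ i, (μ i - μ' i) • x i = (a - a') • v := by
    have h2 : ∑ i, (μ i - μ' i) • x i = ∑ i, μ i • x i - ∑ i, μ' i • x i := by
      rw [← Finset.sum_sub_distrib]
      exact Finset.sum_congr rfl fun i _ => sub_smul _ _ _
    rw [h2, ha, ha', sub_smul]
    abel
  rw [h1, ← add_smul]

lemma gg_diff (μ μ' : σ → ℝ) :
    gg x ℓ j (fun i => μ i - μ' i) t = gg x ℓ j μ t - gg x ℓ j μ' t := by
  unfold gg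
  have h2 : ∑ i, (μ i - μ' i) • x i = ∑ i, μ i • x i - ∑ i, μ' i • x i := by
    rw [← Finset.sum_sub_distrib]
    exact Finset.sum_congr rfl fun i _ => sub_smul _ _ _
  rw [h2, map_sub]
  ring

lemma sum_diff {μ μ' : σ → ℝ} (hμ : μ ∈ Lam x v y) (hμ' : μ' ∈ Lam x v y) :
    ∑ i, (μ i - μ' i) = 0 := by
  rw [Finset.sum_sub_distrib, hμ.1.2, hμ'.1.2, sub_self]

/-- an optimum is determined by its support -/
lemma opt_spt (hv : ℓ v = 1) (hg : GenPos (mv x j v t)) {μ μ' : σ → ℝ} (hμ : Opt x v y ℓ j μ t)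
    (hμ' : μ' ∈ Lam x v y) (hs : ∀ i, μ i = 0 → μ' i = 0) : μ = μ' := by
  obtain ⟨b, hb⟩ := diff_mv (j := j) (t := t) hμ.1 hμ'
  obtain ⟨h1, h2⟩ := gg_of_mv (ℓ := ℓ) hv hb
  have hs' : ∀ i, μ i = 0 → μ i - μ' i = 0 := fun i hi => by rw [hi, hs i hi, sub_zero]
  have h3 := no_improve hμ (sum_diff hμ.1 hμ') h2 hs'
  have h4 : gg x ℓ j (fun i => μ i - μ' i) t = 0 := by
    apply le_antisymm h3
    rw [gg_diff, sub_nonneg]
    exact hμ.2 μ' hμ'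
  have h5 : b = 0 := by rw [← h1, h4]
  rw [h5, zero_smul] at hb
  have h6 := aff_zero hg (spt μ) (card_spt hv hg hμ) (fun i => μ i - μ' i) (fun i hi => by
    apply hs'
    by_contra h
    exact hi ((mem_spt μ i).mpr h)) (sum_diff hμ.1 hμ') hb
  funext i
  exact sub_eq_zero.mp (h6 i)

lemma mid_mem (j : σ) {μ μ' : σ → ℝ} (hμ : μ ∈ Lam x v y) (hμ' : μ' ∈ Lam x v y) :
    (fun i => μ i + 1 / 2 * (μ' i - μ i)) ∈ Lam x v y := by
  obtain ⟨b, hb⟩ := diff_mv (j := j) (t := 0) hμ' hμ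
  apply comb_mem (c := fun i => μ' i - μ i) hμ (sum_diff hμ' hμ)
  · refine ⟨b, ?_⟩
    rw [sum_mv (μ := fun i => μ' i - μ i), zero_mul, zero_smul, add_zero] at hb
    exact hb
  · intro i
    have h1 := hμ.1.1 i
    have h2 := hμ'.1.1 i
    linarith

/-- uniqueness -/
lemma opt_unique (hv : ℓ v = 1) (hg : GenPos (mv x j v t)) {μ μ' : σ → ℝ}
    (hμ : Opt x v y ℓ j μ t) (hμ' : Opt x v y ℓ j μ' t) : μ = μ' := by
  have hν : Opt x v y ℓ j (fun i => μ i + 1 / 2 * (μ' i - μ i)) t := by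
    refine ⟨mid_mem j hμ.1 hμ'.1, ?_⟩
    intro κ hκ
    rw [gg_comb x ℓ j μ (fun i => μ' i - μ i), gg_diff]
    have h1 := hμ.2 κ hκ
    have h2 := hμ'.2 κ hκ
    linarith
  have e1 := opt_spt hv hg hν hμ.1 (fun i hi => by
    have h1 := hμ.1.1.1 i
    have h2 := hμ'.1.1.1 i
    have h3 : μ i + 1 / 2 * (μ' i - μ i) = 0 := hi
    linarith)
  have e2 := opt_spt hv hg hν hμ'.1 (fun i hi => by
    have h1 := hμ.1.1.1 i
    have h2 := hμ'.1.1.1 i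
    have h3 : μ i + 1 / 2 * (μ' i - μ i) = 0 := hi
    linarith)
  exact e1.symm.trans e2

lemma cont_pt (x : σ → ι → ℝ) : Continuous fun μ : σ → ℝ => ∑ i, μ i • x i := by
  apply continuous_finsetSum
  intro i _
  exact (continuous_apply i).smul continuous_const

lemma compact_Lam (hv : ℓ v = 1) : IsCompact (Lam x v y) := by
  have hℓ : Continuous ℓ := ℓ.continuous_of_finiteDimensional
  have h1 : Lam x v y = stdSimplex ℝ σ ∩
      {μ | ∑ i, μ i • x i = y + (ℓ (∑ i, μ i • x i) - ℓ y) • v} := by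
    ext μ
    constructor
    · rintro ⟨h1, a, ha⟩
      refine ⟨h1, ?_⟩
      show ∑ i, μ i • x i = y + (ℓ (∑ i, μ i • x i) - ℓ y) • v
      rw [ha, map_add, map_smul, hv, smul_eq_mul, mul_one, add_sub_cancel_left]
    · rintro ⟨h1, h2⟩
      exact ⟨h1, _, h2⟩
  rw [h1]
  apply (isCompact_stdSimplex ℝ σ).inter_right
  apply isClosed_eq (cont_pt x)
  exact continuous_const.add (((hℓ.comp (cont_pt x)).sub continuous_const).smul continuous_const)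

lemma opt_exists (hv : ℓ v = 1) (hne : (Lam x v y).Nonempty) (j : σ) (t : ℝ) :
    ∃ μ, Opt x v y ℓ j μ t := by
  have hℓ : Continuous ℓ := ℓ.continuous_of_finiteDimensional
  have hc : Continuous fun μ : σ → ℝ => gg x ℓ j μ t :=
    (hℓ.comp (cont_pt x)).add (continuous_const.mul (continuous_apply j))
  obtain ⟨μ, hμ, h⟩ := (compact_Lam (x := x) (y := y) hv).exists_isMaxOn hne hc.continuousOn
  exact ⟨μ, hμ, fun μ' hμ' => h hμ'⟩

lemma closed_opt (x : σ → ι → ℝ) (v y : ι → ℝ) (ℓ : (ι → ℝ) →ₗ[ℝ] ℝ) (j : σ) (μ : σ → ℝ) :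
    IsClosed {t : ℝ | ∀ μ' ∈ Lam x v y, gg x ℓ j μ' t ≤ gg x ℓ j μ t} := by
  have h : {t : ℝ | ∀ μ' ∈ Lam x v y, gg x ℓ j μ' t ≤ gg x ℓ j μ t} =
      ⋂ μ' ∈ Lam x v y, {t : ℝ | gg x ℓ j μ' t ≤ gg x ℓ j μ t} := by
    ext t
    simp
  rw [h]
  apply isClosed_biInter
  intro μ' _
  apply isClosed_le
  · unfold gg
    exact continuous_const.add (continuous_id.mul continuous_const)
  · unfold gg
    exact continuous_const.add (continuous_id.mul continuous_const)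

end

theorem gTOPL : TOPL := by
  intro ι σ _ _ x j v y t₀ t₁ ℓ ht hv hg hne
  have hne' : (Lam x v y).Nonempty := by
    obtain ⟨μ, h1, h2⟩ := hne
    exact ⟨μ, h1, h2⟩
  -- the finitely many optima
  obtain ⟨Λf, hΛf⟩ : ∃ Λf : Set (σ → ℝ), Λf = {μ | ∃ t ∈ Ioo t₀ t₁, Opt x v y ℓ j μ t} := ⟨_, rfl⟩
  have hfin : Λf.Finite := by
    apply Set.Finite.of_finite_image (f := spt) (Set.toFinite _)
    intro μ hμ μ' hμ' hs
    rw [hΛf] at hμ hμ'
    obtain ⟨t, ht1, ht2⟩ := hμ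
    obtain ⟨t', _, ht2'⟩ := hμ'
    apply opt_spt hv (hg t ht1) ht2 ht2'.1
    intro i hi
    by_contra h
    have h1 : i ∈ spt μ' := (mem_spt μ' i).mpr h
    rw [← hs] at h1
    exact (mem_spt μ i).mp h1 hi
  obtain ⟨s0, hs0⟩ : (Ioo t₀ t₁).Nonempty := nonempty_Ioo.mpr ht
  obtain ⟨μ0, hμ0⟩ := opt_exists (x := x) (y := y) hv hne' j s0
  have hcl : ∀ μ, IsClosed {t : ℝ | ∀ μ' ∈ Lam x v y, gg x ℓ j μ' t ≤ gg x ℓ j μ t} :=
    closed_opt x v y ℓ j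
  have hsub : Ioo t₀ t₁ ⊆ {t : ℝ | ∀ μ' ∈ Lam x v y, gg x ℓ j μ' t ≤ gg x ℓ j μ0 t} := by
    by_contra hns
    rw [Set.not_subset] at hns
    obtain ⟨s1, hs1, hs1'⟩ := hns
    have hfin' : (Λf \ {μ0}).Finite := hfin.subset Set.sdiff_subset
    have hcl' : IsClosed (⋃ μ ∈ Λf \ {μ0},
        {t : ℝ | ∀ μ' ∈ Lam x v y, gg x ℓ j μ' t ≤ gg x ℓ j μ t}) :=
      hfin'.isClosed_biUnion (fun μ _ => hcl μ)
    have hcov : ∀ s ∈ Ioo t₀ t₁, s ∉ {t : ℝ | ∀ μ' ∈ Lam x v y, gg x ℓ j μ' t ≤ gg x ℓ j μ0 t} →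
        s ∈ ⋃ μ ∈ Λf \ {μ0}, {t : ℝ | ∀ μ' ∈ Lam x v y, gg x ℓ j μ' t ≤ gg x ℓ j μ t} := by
      intro s hs hs'
      obtain ⟨μ, hμ⟩ := opt_exists (x := x) (y := y) hv hne' j s
      rw [Set.mem_iUnion₂]
      refine ⟨μ, ⟨?_, ?_⟩, hμ.2⟩
      · rw [hΛf]
        exact ⟨s, hs, hμ⟩
      · intro h
        rw [Set.mem_singleton_iff] at h
        apply hs'
        rw [← h]
        exact hμ.2
    have hpre := isPreconnected_closed_iff.mp (isPreconnected_Ioo (a := t₀) (b := t₁)) _ _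
      (hcl μ0) hcl' (fun s hs => by
        by_cases h : s ∈ {t : ℝ | ∀ μ' ∈ Lam x v y, gg x ℓ j μ' t ≤ gg x ℓ j μ0 t}
        · exact Or.inl h
        · exact Or.inr (hcov s hs h)) ⟨s0, hs0, hμ0.2⟩ ⟨s1, hs1, hcov s1 hs1 hs1'⟩
    obtain ⟨s, hs, hsa, hsb⟩ := hpre
    rw [Set.mem_iUnion₂] at hsb
    obtain ⟨μ, ⟨hμ1, hμ2⟩, hμ3⟩ := hsb
    rw [hΛf] at hμ1
    obtain ⟨t', _, ht'⟩ := hμ1
    apply hμ2
    rw [Set.mem_singleton_iff]
    exact opt_unique hv (hg s hs) ⟨ht'.1, hμ3⟩ ⟨hμ0.1, hsa⟩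
  have hsub' : Icc t₀ t₁ ⊆ {t : ℝ | ∀ μ' ∈ Lam x v y, gg x ℓ j μ' t ≤ gg x ℓ j μ0 t} := by
    rw [← closure_Ioo ht.ne]
    exact closure_minimal hsub (hcl μ0)
  refine ⟨μ0, hμ0.1.1, hμ0.1.2, ?_⟩
  intro μ' h1 h2 t ht'
  exact hsub' ht' μ' ⟨h1, h2⟩

end Pool.Agent.Helper62.PN
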